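import Pool.Agent.Helper19.PU.Defs

/-!
# Project PU (MP_19c155_gt): statements of the pieces.  Not imported by any result.
Hints in /team-store/PU_hints.md.
-/

open MeasureTheory Set Metric Filter Module
open scoped NNReal Topology RealInnerProductSpace ENNReal Real ContDiff Manifold

namespace Pool.Agent.Helper19.PU.Spec

variable {E : Type*} [NormedAddCommGroup E] [InnerProductSpace ℝ E]

/-! ### PU-1 -/

theorem exists_CS [FiniteDimensional ℝ E] (k : ℕ) (hk : finrank ℝ E = 2 * k) :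
    ∃ J : E →L[ℝ] E, CS J := sorry

theorem CS.skew {J : E →L[ℝ] E} (hJ : CS J) (x y : E) : ⟪J x, y⟫ = -⟪x, J y⟫ := sorry

theorem CS.inner_map {J : E →L[ℝ] E} (hJ : CS J) (x y : E) : ⟪J x, J y⟫ = ⟪x, y⟫ := sorry

theorem CS.sq {J : E →L[ℝ] E} (hJ : CS J) (x : E) : J (J x) = -x := sorry

/-! ### PU-2 -/

theorem Dm_pos {a x : E} {μ : ℝ} (ha : ‖a‖ = 1) (hx : ‖x‖ = 1) (hμ : μ ≠ 0 ∨ x ≠ -a) :
    0 < Dm a μ x := sorry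

theorem inner_Wm {J : E →L[ℝ] E} (hJ : CS J) {a x : E} (ha : ‖a‖ = 1) (hx : ‖x‖ = 1) (μ : ℝ) :
    ⟪x, Wm J a μ x⟫ = 0 := sorry

theorem norm_Wm {J : E →L[ℝ] E} (hJ : CS J) {a x : E} {μ : ℝ} (ha : ‖a‖ = 1) (hx : ‖x‖ = 1)
    (hμ : μ ≠ 0 ∨ x ≠ -a) : ‖Wm J a μ x‖ = 1 := sorry

/-! ### PU-3 -/

theorem hasFDerivAt_Wm (J : E →L[ℝ] E) (a x : E) (μ : ℝ) (hD : Dm a μ x ≠ 0) :
    HasFDerivAt (Wm J a μ) (dW J a μ x) x := sorry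

theorem contMDiff_Wm [FiniteDimensional ℝ E] {n : ℕ} [Fact (finrank ℝ E = n + 1)]
    (J : E →L[ℝ] E) {a : E} (ha : ‖a‖ = 1) {μ : ℝ} (hμ : μ ≠ 0) :
    ContMDiff (𝓡 n) 𝓘(ℝ, E) ∞ (fun x : sphere (0 : E) 1 => Wm J a μ (x : E)) := sorry

/-! ### PU-4 -/

theorem covDeriv_of_hasFDerivAt (G : E → E) {G' : E →L[ℝ] E} (x : sphere (0 : E) 1)
    (hG : HasFDerivAt G G' (x : E)) :
    covDeriv (fun y : sphere (0 : E) 1 => G y) x = pr (x : E) ∘L G' ∘L pr (x : E) := sorry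

/-! ### PU-5 -/

theorem norm_Tm_sq {J : E →L[ℝ] E} (hJ : CS J) {a x : E} {μ : ℝ} (ha : ‖a‖ = 1) (hx : ‖x‖ = 1)
    (hμ0 : 0 ≤ μ) (hμ1 : μ ≤ 1) (hμ : μ ≠ 0 ∨ x ≠ -a) :
    ‖Tm J a μ x‖ ^ 2 * (1 + ⟪a, x⟫) ≤ 200 := sorry

/-! ### PU-6 -/

theorem volDens_le [FiniteDimensional ℝ E] (m : ℕ) (hfr : finrank ℝ E = 2 * m + 2)
    (L : E →L[ℝ] E) (x w : E) (hx : ‖x‖ = 1) (hw : ‖w‖ = 1) (hxw : ⟪x, w⟫ = 0)
    (hLx : ∀ δ, ⟪x, L δ⟫ = 0) (hLw : ∀ δ, ⟪w, L δ⟫ = 0) :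
    volDens L ≤ (1 + ‖L‖ ^ 2) ^ m := sorry

/-- the derivative of a field of constant length is orthogonal to it. -/
theorem inner_Wm_Tm {J : E →L[ℝ] E} (hJ : CS J) {a x : E} {μ : ℝ} (ha : ‖a‖ = 1) (hx : ‖x‖ = 1)
    (hμ : μ ≠ 0 ∨ x ≠ -a) (δ : E) : ⟪Wm J a μ x, Tm J a μ x δ⟫ = 0 := sorry

/-! ### PU-7: the density of the parallel transport field -/

theorem Tm_zero {J : E →L[ℝ] E} (hJ : CS J) {a x : E} (ha : ‖a‖ = 1) (hx : ‖x‖ = 1)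
    (hxa : x ≠ -a) (δ : E) :
    Tm J a 0 x δ = -(⟪J a, x⟫ / (1 + ⟪a, x⟫)) • pr x δ
      - (⟪Wm J a 0 x, δ⟫ / (1 + ⟪a, x⟫)) • (a - ⟪a, x⟫ • x) := sorry

theorem volDens_zero [FiniteDimensional ℝ E] (m : ℕ) (hm : 1 ≤ m) (hfr : finrank ℝ E = 2 * m + 2)
    {J : E →L[ℝ] E} (hJ : CS J) {a x : E} (ha : ‖a‖ = 1) (hx : ‖x‖ = 1) (hxa : x ≠ -a) :
    volDens (Tm J a 0 x) = √(2 / (1 + ⟪a, x⟫))
      * √(1 + (⟪J a, x⟫ / (1 + ⟪a, x⟫)) ^ 2) ^ (2 * m - 1) := sorry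

/-! ### PU-8: continuity at `μ = 0` -/

theorem tendsto_Tm (J : E →L[ℝ] E) {a x : E} (ha : ‖a‖ = 1) (hx : ‖x‖ = 1) (hxa : x ≠ -a) :
    Tendsto (fun μ : ℝ => Tm J a μ x) (𝓝 0) (𝓝 (Tm J a 0 x)) := sorry

/-! ### PU-9: parabolic coordinates -/

theorem lintegral_parabolic_one (w : ℝ) (hw : 0 < w) (f : ℝ → ℝ → ℝ≥0∞) :
    ∫⁻ s : ℝ, f s (√(s ^ 2 + w))
      = ∫⁻ q in Ioi (0 : ℝ), ENNReal.ofReal ((q ^ 2 + w) / (2 * q ^ 2))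
          * f ((q ^ 2 - w) / (2 * q)) ((q ^ 2 + w) / (2 * q)) := sorry

/-! ### PU-10: polar coordinates for `lintegral` -/

theorem lintegral_polar_mul [FiniteDimensional ℝ E] [MeasurableSpace E] [BorelSpace E]
    [Nontrivial E] (g : E → ℝ≥0∞) (h : sphere (0 : E) 1 → ℝ≥0∞) (w : ℝ → ℝ≥0∞) (hh : Measurable h)
    (hw : Measurable w) (hg : ∀ u : sphere (0 : E) 1, ∀ r : ℝ, 0 < r → g (r • (u : E)) = h u * w r) :
    ∫⁻ x, g x = (∫⁻ u, h u ∂(volume : Measure E).toSphere)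
      * ∫⁻ r in Ioi (0 : ℝ), ENNReal.ofReal (r ^ (finrank ℝ E - 1)) * w r := sorry

/-! ### PU-11 (uses PU-9, PU-10): integrability -/

theorem lintegral_pow_lt_top [FiniteDimensional ℝ E] [MeasurableSpace E] [BorelSpace E]
    (m : ℕ) (hm : 1 ≤ m) (hfr : finrank ℝ E = 2 * m + 2) {a : E} (ha : ‖a‖ = 1) :
    ∫⁻ u : sphere (0 : E) 1, ENNReal.ofReal (((1 + ⟪a, (u : E)⟫) ^ m)⁻¹)
      ∂(volume : Measure E).toSphere < ⊤ := sorry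

/-! ### PU-12 (uses PU-9, PU-10): the volume of the parallel transport field -/

theorem lintegral_density [FiniteDimensional ℝ E] [MeasurableSpace E] [BorelSpace E]
    (m : ℕ) (hm : 1 ≤ m) (hfr : finrank ℝ E = 2 * m + 2) {a b : E} (ha : ‖a‖ = 1) (hb : ‖b‖ = 1)
    (hab : ⟪a, b⟫ = 0) :
    ∫⁻ u : sphere (0 : E) 1, ENNReal.ofReal (√(2 / (1 + ⟪a, (u : E)⟫))
        * √(1 + (⟪b, (u : E)⟫ / (1 + ⟪a, (u : E)⟫)) ^ 2) ^ (2 * m - 1))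
      ∂(volume : Measure E).toSphere
      = ENNReal.ofReal (2 ^ (2 * m + 1) * π ^ (m + 1) * Real.Gamma (m + 1 / 2)
          / Real.Gamma (2 * m + 1 / 2)) := sorry

/-! ### PU-13: the constant -/

theorem const_eq [FiniteDimensional ℝ E] [MeasurableSpace E] [BorelSpace E]
    (m : ℕ) (hm : 1 ≤ m) (hfr : finrank ℝ E = 2 * m + 2) :
    2 ^ (2 * m + 1) * π ^ (m + 1) * Real.Gamma (m + 1 / 2) / Real.Gamma (2 * m + 1 / 2)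
      = 16 ^ m / ((4 * m).choose (2 * m) : ℝ) * (volume : Measure E).toSphere.real univ := sorry

end Pool.Agent.Helper19.PU.Spec
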